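import Pool.Agent.MP_bd94e8_al.H89.Spec

/-! Reduction to basic problems: vertices isomorphic to another vertex are deleted. -/

set_option autoImplicit false
set_option linter.unusedSectionVars false

namespace Pool.Agent.MP_bd94e8_al.H89

open Module Function

namespace MainPA

variable {k F : Type} [Field k] [Field F] [Algebra k F] {Pt ι : Type} [Fintype Pt] [DecidableEq Pt]

/-- Restriction of a matrix to a set of points. -/
def rs (S : Pt → Prop) (a : Matrix Pt Pt F) : Matrix {p // S p} {p // S p} F :=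
  a.submatrix Subtype.val Subtype.val

theorem rs_mul (S : Pt → Prop) [DecidablePred S] {a : Matrix Pt Pt F}
    (ha : ∀ q p, a q p ≠ 0 → S p) (a' : Matrix Pt Pt F) : rs S (a * a') = rs S a * rs S a' := by
  ext q p
  simp only [rs, Matrix.submatrix_apply, Matrix.mul_apply]
  rw [← Finset.sum_subtype (Finset.univ.filter S) (by simp) (fun x => a q.1 x * a' x p.1),
    Finset.sum_filter]
  refine Finset.sum_congr rfl fun x _ => ?_
  split_ifs with h
  · rfl
  · have : a q.1 x = 0 := by_contra fun e => h (ha _ _ e)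
    rw [this, zero_mul]

theorem rs_pow (S : Pt → Prop) [DecidablePred S] {a : Matrix Pt Pt F}
    (ha : ∀ q p, a q p ≠ 0 → S p) (n : ℕ) : rs S (a ^ (n + 1)) = rs S a ^ (n + 1) := by
  induction n with
  | zero => simp
  | succ n ih => rw [pow_succ' a, rs_mul S ha, ih, ← pow_succ']

theorem rs_nil (S : Pt → Prop) [DecidablePred S] {a : Matrix Pt Pt F}
    (ha : ∀ q p, a q p ≠ 0 → S p) (h : IsNilpotent a) : IsNilpotent (rs S a) := by
  obtain ⟨n, hn⟩ := h
  refine ⟨n + 1, ?_⟩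
  rw [← rs_pow S ha, pow_succ, hn, zero_mul]
  rfl

variable (P : Prob k F Pt ι Unit)

theorem e_In (i : ι) : P.In i i (P.e i) := by
  intro q p h
  have h1 : P.vt p = i := by_contra fun e => h (P.e_neg q e)
  have h2 : q = p := by_contra fun e => h (P.e_off i e)
  exact ⟨h1, h2 ▸ h1⟩

theorem blk_self {i j : ι} {b : Matrix Pt Pt F} (hb : P.In i j b) : P.blk i j b = b := by
  ext q p
  by_cases h : P.vt p = i ∧ P.vt q = j
  · exact P.blk_pos b h.1 h.2
  · rw [P.blk_neg b h]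
    exact (by_contra fun e => h (hb q p e) : b q p = 0).symm

theorem mul_H {i j l : ι} {b b' : Matrix Pt Pt F} (hb : b ∈ P.H j l) (hb' : b' ∈ P.H i j) :
    b * b' ∈ P.H i l := by
  refine ⟨P.B.mul_mem hb.1 hb'.1, fun q p h => ?_⟩
  rw [Matrix.mul_apply] at h
  obtain ⟨x, _, hx⟩ := Finset.exists_ne_zero_of_sum_ne_zero h
  exact ⟨(hb'.2 x p (right_ne_zero_of_mul hx)).1, (hb.2 q x (left_ne_zero_of_mul hx)).2⟩

theorem pow_H {i : ι} {b : Matrix Pt Pt F} (hb : b ∈ P.H i i) (n : ℕ) : b ^ (n + 1) ∈ P.H i i := by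
  induction n with
  | zero => simpa using hb
  | succ n ih => rw [pow_succ]; exact mul_H P ih hb

theorem e_mul_e (j : ι) : P.e j * P.e j = P.e j := by
  have := blk_self P (e_In P j)
  ext q p
  by_cases h : q = p
  · subst h
    rw [Matrix.mul_apply, Finset.sum_eq_single q (fun x _ hx => by rw [P.e_off j hx, mul_zero])
      (by simp)]
    by_cases e : P.vt q = j
    · rw [P.e_pos _ e]; simp
    · rw [P.e_neg _ e]; simp
  · rw [P.e_off j h, Matrix.mul_apply]
    refine Finset.sum_eq_zero fun x _ => ?_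
    by_cases hx : x = p
    · rw [hx, P.e_off j h, zero_mul]
    · rw [P.e_off j hx, mul_zero]

theorem e_mul {i j : ι} {b : Matrix Pt Pt F} (hb : P.In i j b) : P.e j * b = b := by
  conv_lhs => rw [← blk_self P hb, P.blk_eq, ← mul_assoc, ← mul_assoc, e_mul_e, ← P.blk_eq]
  exact blk_self P hb

theorem mul_e {i j : ι} {b : Matrix Pt Pt F} (hb : P.In i j b) : b * P.e i = b := by
  conv_lhs => rw [← blk_self P hb, P.blk_eq, mul_assoc, e_mul_e, ← P.blk_eq]
  exact blk_self P hb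

theorem eps_eq (j : ι) : mask (fun _ p => P.vt p ≠ j) (1 : Matrix Pt Pt F) = 1 - P.e j := by
  ext q p
  by_cases h : P.vt p = j
  · rw [mask_neg (s := fun _ p => P.vt p ≠ j) _ (not_not.2 h), Matrix.sub_apply, P.e_pos q h,
      sub_self]
  · rw [mask_pos (s := fun _ p => P.vt p ≠ j) _ h, Matrix.sub_apply, P.e_neg q h, sub_zero]

theorem morOk {i j : ι} (hij : i ≠ j) {b b' : Matrix Pt Pt F} (hb : b ∈ P.H i j)
    (hb' : b' ∈ P.H j i) (hn : ¬ IsNilpotent (b' * b)) {r : ℕ} {c : k}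
    (h : IsNilpotent ((b * b') ^ (ringExpChar k ^ r) - c • P.e j)) :
    MorOk P fun p => P.vt p ≠ j := by
  obtain ⟨s, hs⟩ : ∃ s, ringExpChar k ^ r = s + 1 :=
    Nat.exists_eq_succ_of_ne_zero (pow_pos (expChar_pos k _) r).ne'
  rw [hs] at h
  have hx := mul_H P hb hb'
  have hc : c ≠ 0 := by
    rintro rfl
    rw [zero_smul, sub_zero] at h
    obtain ⟨n, hn'⟩ := IsNilpotent.of_pow h
    refine hn ⟨n + 1, ?_⟩
    have : ∀ n : ℕ, (b' * b) ^ (n + 1) = b' * (b * b') ^ n * b := by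
      intro n
      induction n with
      | zero => simp
      | succ n ih => rw [pow_succ, ih, pow_succ]; noncomm_ring
    rw [this, hn', mul_zero, zero_mul]
  set m : Matrix Pt Pt F := (-c⁻¹) • ((b * b') ^ (s + 1) - c • P.e j) with hm
  have hmH : m ∈ P.H j j := Submodule.smul_mem _ _ (Submodule.sub_mem _ (pow_H P hx s)
    (Submodule.smul_mem _ _ ⟨P.e_mem j, e_In P j⟩))
  obtain ⟨N, hN⟩ : IsNilpotent m := h.smul _
  have h1 : (b * b') ^ (s + 1) = c • (P.e j * (1 - m)) := by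
    rw [mul_sub, mul_one, e_mul P hmH.2, hm, smul_sub, smul_smul, mul_neg, mul_inv_cancel₀ hc]
    simp
  have h2 : (b * b') ^ (s + 1) * (c⁻¹ • ∑ t ∈ Finset.range N, m ^ t) = P.e j := by
    rw [h1, smul_mul_smul_comm, mul_inv_cancel₀ hc, one_smul, mul_assoc, mul_neg_geom_sum, hN,
      sub_zero, mul_one]
  have hbe : b * P.e j = 0 := by
    ext q p
    rw [Matrix.mul_apply, Matrix.zero_apply]
    refine Finset.sum_eq_zero fun x _ => ?_
    by_cases e : b q x = 0
    · rw [e, zero_mul]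
    · have : P.e j x p = 0 := by_contra fun e' => hij ((hb.2 q x e).1.symm.trans (e_In P j x p e').2)
      rw [this, mul_zero]
  rw [MorOk, eps_eq]
  refine ⟨P.B.sub_mem P.B.one_mem (P.e_mem j), ?_⟩
  have h3 : (1 : Matrix Pt Pt F) = 1 * (1 - P.e j) * 1 + b * (1 - P.e j) *
      (b' * (b * b') ^ s * (c⁻¹ • ∑ t ∈ Finset.range N, m ^ t)) := by
    rw [mul_sub b, hbe, mul_one, mul_one, one_mul, sub_zero, ← mul_assoc, ← mul_assoc,
      ← pow_succ', h2, sub_add_cancel]
  rw [h3]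
  refine add_mem (AddSubgroup.subset_closure ⟨1, P.B.one_mem, 1, P.B.one_mem, by rw [← h3]⟩)
    (AddSubgroup.subset_closure ⟨b, hb.1, _, ?_, by rw [← h3]⟩)
  exact P.B.mul_mem (P.B.mul_mem hb'.1 (P.B.pow_mem hx.1 s))
    (P.B.smul_mem (P.B.sum_mem fun t _ => P.B.pow_mem hmH.1 t) _)

theorem sub_e (S : Pt → Prop) [DecidablePred S] (h : SubOk P S) (i : ι) :
    (P.sub S h).e i = rs S (P.e i) := by
  ext q p
  by_cases e : P.vt p.1 = i
  · rw [(P.sub S h).e_pos q e, rs, Matrix.submatrix_apply, P.e_pos _ e]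
    simp [Matrix.one_apply, Subtype.ext_iff]
  · rw [(P.sub S h).e_neg q e, rs, Matrix.submatrix_apply, P.e_neg _ e]

theorem sub_H (S : Pt → Prop) [DecidablePred S] (h : SubOk P S) {i : ι}
    {a : Matrix {p // S p} {p // S p} F} (ha : a ∈ (P.sub S h).H i i) :
    ∃ b ∈ P.H i i, rs S b = a := by
  obtain ⟨⟨b, hb, rfl⟩, hI⟩ := ha
  refine ⟨P.blk i i b, P.blk_mem hb i i, ?_⟩
  ext q p
  by_cases e : P.vt p.1 = i ∧ P.vt q.1 = i
  · exact P.blk_pos b e.1 e.2
  · rw [rs, Matrix.submatrix_apply, P.blk_neg b e]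
    exact (by_contra fun e' => e (hI q p e') : _ = (0 : F)).symm

theorem sub_zero' {j : ι} [DecidablePred fun p => P.vt p ≠ j] (h : SubOk P fun p => P.vt p ≠ j)
    {a : Matrix {p // P.vt p ≠ j} {p // P.vt p ≠ j} F}
    (ha : a ∈ (P.sub (fun p => P.vt p ≠ j) h).H j j) : a = 0 := by
  ext q p
  exact by_contra fun e => p.2 (ha.2 q p e).1

end MainPA

open MainPA

theorem main' : SMor → SHT → SMain → SMain' := by
  classical
  intro hMor hHT hMain k F _ _ _ _ _ Pt ι _ _ _ P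
  induction hn : Fintype.card Pt using Nat.strong_induction_on generalizing Pt with
  | _ n ih =>
  intro hpi hcomm hyp
  by_cases hbas : ∀ i j, i ≠ j → ∀ b ∈ P.H i j, ∀ b' ∈ P.H j i, IsNilpotent (b' * b)
  · exact hMain k F Pt ι P ⟨hpi, hcomm, hbas⟩ hyp
  push Not at hbas
  obtain ⟨i, j, hij, b, hb, b', hb', hnil⟩ := hbas
  obtain ⟨r, c, hrc⟩ := hpi j _ (mul_H P hb hb')
  have hM := morOk P hij hb hb' hnil hrc
  obtain ⟨hS, hO⟩ := hMor k F Pt ι Unit P (fun p => P.vt p ≠ j) hM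
  have hcard : Fintype.card {p // P.vt p ≠ j} < n := by
    have hb0 : b ≠ 0 := by
      rintro rfl
      exact hnil (by simp)
    obtain ⟨q, p, hqp⟩ : ∃ q p, b q p ≠ 0 := by
      by_contra hc
      push Not at hc
      exact hb0 (Matrix.ext hc)
    rw [← hn]
    exact Fintype.card_subtype_lt (x := q) (not_not.2 (hb.2 q p hqp).2)
  have hsup : ∀ l, l ≠ j → ∀ a ∈ P.H l l, ∀ q p, a q p ≠ 0 → P.vt p ≠ j :=
    fun l hl a ha q p e => (ha.2 q p e).1 ▸ hl
  obtain ⟨d, hd⟩ := ih _ hcard {p // P.vt p ≠ j} (P.sub (fun p => P.vt p ≠ j) hS) rfl (by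
      intro l a ha
      by_cases hl : l = j
      · subst hl
        exact ⟨0, 0, by simp [sub_zero' P hS ha]⟩
      obtain ⟨a0, ha0, rfl⟩ := sub_H P _ hS ha
      obtain ⟨r, c, h⟩ := hpi l a0 ha0
      obtain ⟨s, hs⟩ : ∃ s, ringExpChar k ^ r = s + 1 :=
        Nat.exists_eq_succ_of_ne_zero (pow_pos (expChar_pos k _) r).ne'
      refine ⟨r, c, ?_⟩
      rw [hs] at h ⊢
      have := rs_nil (fun p => P.vt p ≠ j) (hsup l hl _ (Submodule.sub_mem _ (pow_H P ha0 s)
        (Submodule.smul_mem _ c ⟨P.e_mem l, e_In P l⟩))) h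
      rw [← rs_pow _ (hsup l hl _ ha0), sub_e]
      exact this) (by
      intro l a ha a' ha'
      by_cases hl : l = j
      · subst hl
        simp [sub_zero' P hS ha]
      obtain ⟨a0, ha0, rfl⟩ := sub_H P _ hS ha
      obtain ⟨a1, ha1, rfl⟩ := sub_H P _ hS ha'
      have := rs_nil (fun p => P.vt p ≠ j) (hsup l hl _ (Submodule.sub_mem _ (mul_H P ha0 ha1)
        (mul_H P ha1 ha0))) (hcomm l a0 ha0 a1 ha1)
      rw [← rs_mul _ (hsup l hl _ ha0), ← rs_mul _ (hsup l hl _ ha1)]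
      exact this) (by
      refine hHT k F Pt _ P.B _ ((1 : Matrix Pt Pt F).submatrix (Equiv.refl Pt) Subtype.val)
        ((1 : Matrix Pt Pt F).submatrix Subtype.val (Equiv.refl Pt)) ?_ ?_ hyp
      · rw [Matrix.one_submatrix_mul]
        ext q p
        simp [Matrix.one_apply, Subtype.ext_iff]
      · intro a ha
        refine ⟨a, ha, ?_⟩
        rw [Matrix.one_submatrix_mul, Matrix.mul_submatrix_one]
        rfl)
  refine ⟨d, fun V _ _ _ M hM' => ?_⟩
  obtain ⟨M', _, hh, _⟩ := hO hS V M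
  exact hd V M' ⟨hM'.1, fun e he => hM'.2 e ((hh e).2 he)⟩

end Pool.Agent.MP_bd94e8_al.H89
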