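import Pool.Agent.MP_bd94e8_al.H89.Spec

/-! Push-downs of objects of covers, and graded objects as push-downs. -/

set_option autoImplicit false
set_option linter.unusedSectionVars false

namespace Pool.Agent.MP_bd94e8_al.H89

open Module Function

namespace PushA

variable {k F : Type} [Field k] [Field F] [Algebra k F] {Pt ι Ω : Type} [Fintype Pt]
  [DecidableEq Pt] [Fintype Ω] {P : Prob k F Pt ι Ω} {V : Type} [AddCommGroup V] [Module F V]

theorem eps_idem (M : Obj P V) (o : Ω) (x : V) : M.ε o (M.ε o x) = M.ε o x := by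
  have h := LinearMap.congr_fun M.sum (M.ε o x)
  rw [LinearMap.sum_apply] at h
  exact (Finset.sum_eq_single (f := fun o' => M.ε o' (M.ε o x)) o
    (fun o' _ ho => LinearMap.congr_fun (M.orth o' o ho) x) (by simp)).symm.trans h

theorem eps_orth (M : Obj P V) {o o' : Ω} (h : o ≠ o') (x : V) : M.ε o (M.ε o' x) = 0 :=
  LinearMap.congr_fun (M.orth o o' h) x

theorem eps_total (M : Obj P V) (x : V) : ∑ o, M.ε o x = x := by
  have h := LinearMap.congr_fun M.sum x
  rwa [LinearMap.sum_apply] at h

omit [Fintype Ω] in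
open Classical in
theorem act_e_mul (i : ι) (h : Matrix Pt Pt F) (w : Pt → V) (q : Pt) :
    act (P.e i * h) w q = if P.vt q = i then act h w q else 0 := by
  have : ∀ p, (P.e i * h) q p = if P.vt q = i then h q p else 0 := by
    intro p
    rw [Matrix.mul_apply, Finset.sum_eq_single q
      (fun x _ hx => by rw [P.e_off i hx.symm, zero_mul]) (by simp)]
    split_ifs with e
    · rw [P.e_pos _ e]; simp
    · rw [P.e_neg _ e, zero_mul]
  simp only [act, this]
  split_ifs <;> simp

omit [Fintype Ω] in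
open Classical in
theorem mul_e_apply (j : ι) (h : Matrix Pt Pt F) (q p : Pt) :
    (h * P.e j) q p = if P.vt p = j then h q p else 0 := by
  rw [Matrix.mul_apply, Finset.sum_eq_single p (fun x _ hx => by rw [P.e_off j hx, mul_zero])
    (by simp)]
  split_ifs with e
  · rw [P.e_pos _ e]; simp
  · rw [P.e_neg _ e, mul_zero]

theorem act_one (w : Pt → V) : act (1 : Matrix Pt Pt F) w = w := by
  ext q
  simp [act, Matrix.one_apply]

open Classical in
theorem vpart_mem (M : Obj P V) {w : Pt → V} (hw : w ∈ M.U) (i : ι) :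
    (fun p => if P.vt p = i then w p else 0) ∈ M.U := by
  have := M.stab _ (P.B.mul_mem (P.e_mem i) P.B.one_mem) w hw
  convert this using 1
  ext q
  rw [act_e_mul, act_one]

open Classical in
theorem sum_vpart (vt : Pt → ι) (w : Pt → V) :
    w = ∑ i ∈ Finset.univ.image vt, fun p => if vt p = i then w p else 0 := by
  ext p
  rw [Finset.sum_apply, Finset.sum_ite_eq]
  simp

variable {T I O : Type} [Fintype T] [DecidableEq T] {J : Prob k F T I O} {π : T → Pt}

open Classical in
/-- The part of `u` at the vertex `i`, pushed down. -/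
noncomputable def pv (J : Prob k F T I O) (π : T → Pt) (i : I) : (T → V) →+ (Pt → V) where
  toFun u p := ∑ t, if J.vt t = i ∧ π t = p then u t else 0
  map_zero' := by ext p; simp
  map_add' u v := by
    ext p
    rw [Pi.add_apply, ← Finset.sum_add_distrib]
    refine Finset.sum_congr rfl fun t _ => ?_
    split_ifs <;> simp

open Classical in
theorem pv_apply (i : I) (u : T → V) (p : Pt) :
    pv J π i u p = ∑ t, if J.vt t = i ∧ π t = p then u t else 0 := rfl

theorem pv_pos (hc : Cover J P π) {i : I} (u : T → V) {t : T} (ht : J.vt t = i) :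
    pv J π i u (π t) = u t := by
  rw [pv_apply, Finset.sum_eq_single t, if_pos ⟨ht, rfl⟩]
  · intro t' _ h
    exact if_neg fun e => h (hc.inj _ _ (e.1.trans ht.symm) e.2)
  · simp

theorem pv_neg {i : I} (u : T → V) {p : Pt} (h : ∀ t, J.vt t = i → π t ≠ p) :
    pv J π i u p = 0 :=
  Finset.sum_eq_zero fun t _ => if_neg fun e => h t e.1 e.2

theorem pv_map (i : I) (u : T → V) (e : V →ₗ[F] V) :
    pv J π i (fun t => e (u t)) = fun p => e (pv J π i u p) := by
  ext p
  rw [pv_apply, pv_apply, map_sum]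
  refine Finset.sum_congr rfl fun t _ => ?_
  split_ifs <;> simp

theorem pv_act (hc : Cover J P π) {b : Matrix T T F} (hb : b ∈ J.B) (i j : I) {t0 : T}
    (ht0 : J.vt t0 = j) : ∃ h ∈ P.B, ∀ u : T → V,
      pv J π i (act (b * J.e j) u) = act (h * P.e (P.vt (π t0))) (pv J π j u) := by
  classical
  by_cases hi : ∃ s0, J.vt s0 = i
  swap
  · refine ⟨0, P.B.zero_mem, fun u => ?_⟩
    ext q
    rw [pv_neg _ fun t ht => (hi ⟨t, ht⟩).elim]
    simp [act]
  obtain ⟨s0, hs0⟩ := hi
  obtain ⟨h, hh, hbh⟩ := ((hc.mem b).1 hb).2 j i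
  refine ⟨P.e (P.vt (π s0)) * h, P.B.mul_mem (P.e_mem _) hh, fun u => ?_⟩
  ext q
  rw [mul_assoc, act_e_mul]
  split_ifs with hq
  · obtain ⟨s, hs, rfl⟩ := hc.full s0 q hq
    rw [pv_pos hc _ (hs.trans hs0)]
    simp only [act, pv_apply, Finset.smul_sum]
    rw [Finset.sum_comm]
    refine Finset.sum_congr rfl fun t _ => ?_
    rw [mul_e_apply, Finset.sum_eq_single (π t) (fun p _ hp => by
      rw [if_neg fun e => hp e.2.symm, smul_zero]) (by simp), mul_e_apply]
    by_cases ht : J.vt t = j
    · rw [if_pos ht, if_pos (hc.vt_eq _ _ (ht.trans ht0.symm)), if_pos ⟨ht, rfl⟩,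
        hbh t s ht (hs.trans hs0)]
    · rw [if_neg ht, if_neg (fun e : J.vt t = j ∧ π t = π t => ht e.1), zero_smul, smul_zero]
  · exact pv_neg _ fun t ht e => hq (e ▸ hc.vt_eq _ _ (ht.trans hs0.symm))

open Classical in
theorem act_split (b : Matrix T T F) (u : T → V) :
    act b u = ∑ j ∈ Finset.univ.image J.vt, act (b * J.e j) u := by
  ext q
  rw [Finset.sum_apply]
  simp only [act]
  rw [Finset.sum_comm]
  refine Finset.sum_congr rfl fun t _ => ?_
  rw [← Finset.sum_smul]
  rw [Finset.sum_congr rfl fun j _ => mul_e_apply (P := J) j b q t, Finset.sum_ite_eq]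
  simp

variable [Fintype O] {ρ : O → Ω} {N : Obj J V} {M : Obj P V}

open Classical in
theorem eps_sum (hp : ∀ o, M.ε (ρ o) ∘ₗ N.ε o = N.ε o) (ω : Ω) (x : V) :
    M.ε ω x = ∑ o, if ρ o = ω then N.ε o x else 0 := by
  conv_lhs => rw [← eps_total N x, map_sum]
  refine Finset.sum_congr rfl fun o _ => ?_
  have h : M.ε (ρ o) (N.ε o x) = N.ε o x := LinearMap.congr_fun (hp o) x
  split_ifs with e
  · rw [← e, h]
  · rw [← h, eps_orth M (Ne.symm e)]

theorem eps_right (hp : ∀ o, M.ε (ρ o) ∘ₗ N.ε o = N.ε o) (o : O) (x : V) :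
    N.ε o (M.ε (ρ o) x) = N.ε o x := by
  classical
  rw [eps_sum hp, map_sum, Finset.sum_eq_single o, if_pos rfl, eps_idem]
  · intro o' _ h
    split_ifs
    · exact eps_orth N (Ne.symm h) x
    · exact map_zero _
  · simp

theorem pv_mem (hc : Cover J P π) (hp : Push π ρ N M) {u : T → V} (hu : u ∈ N.U) (i : I) :
    pv J π i u ∈ M.U :=
  hp.down u hu i _ (fun _ ht => pv_pos hc u ht) fun _ h => pv_neg u h

open Classical in
theorem pv_up (hc : Cover J P π) (hp : Push π ρ N M) {w : Pt → V} (hw : w ∈ M.U) :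
    w = ∑ i ∈ Finset.univ.image J.vt, pv J π i fun t => N.ε (J.pk t) (w (π t)) := by
  ext p
  rw [Finset.sum_apply]
  simp only [pv_apply]
  rw [Finset.sum_comm, ← M.peak w hw p, eps_sum hp.eps]
  have h1 : ∀ t, (∑ i ∈ Finset.univ.image J.vt,
      if J.vt t = i ∧ π t = p then N.ε (J.pk t) (w (π t)) else 0) =
      if π t = p then N.ε (J.pk t) (w p) else 0 := by
    intro t
    rw [Finset.sum_eq_single (J.vt t) (fun i _ hi => if_neg fun e => hi e.1.symm) (by simp)]
    by_cases e : π t = p
    · simp [e]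
    · simp [e]
  simp only [h1]
  symm
  refine Finset.sum_bij_ne_zero (fun t _ _ => J.pk t) (by simp) ?_ ?_ ?_
  · intro t _ h t' _ h' e
    have e1 : π t = p := by_contra fun x => h (if_neg x)
    have e2 : π t' = p := by_contra fun x => h' (if_neg x)
    exact hc.uniq _ _ (e1.trans e2.symm) e
  · intro o _ h
    have e1 : ρ o = P.pk p := by_contra fun x => h (if_neg x)
    rw [if_pos e1] at h
    obtain ⟨t, ht, rfl⟩ := hp.lift p o (fun x => h (by rw [x]; rfl)) e1
    exact ⟨t, Finset.mem_univ _, by rwa [if_pos ht], rfl⟩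
  · intro t _ h
    have e1 : π t = p := by_contra fun x => h (if_neg x)
    rw [if_pos e1, if_pos (by rw [hp.pk, e1])]

theorem grd_idem {G : Type} [Group G] {deg : Pt → G} (Γ : Grd M deg) (g : G) (x : V) :
    Γ.π g (Γ.π g x) = Γ.π g x := by
  by_cases hg : g ∈ Γ.s
  · have h := LinearMap.congr_fun Γ.sum (Γ.π g x)
    rw [LinearMap.sum_apply] at h
    exact (Finset.sum_eq_single (f := fun o' => Γ.π o' (Γ.π g x)) g
      (fun o' _ ho => LinearMap.congr_fun (Γ.orth o' g ho) x) (fun h => (h hg).elim)).symm.trans h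
  · simp [Γ.supp g hg]

theorem grd_comm {G : Type} [Group G] {deg : Pt → G} (Γ : Grd M deg) (g : G) (o : Ω) (x : V) :
    Γ.π g (M.ε o x) = M.ε o (Γ.π g x) := LinearMap.congr_fun (Γ.comm g o) x

end PushA

open PushA

theorem push : SPush := by
  classical
  intro k F _ _ _ Pt ι Ω _ _ _ P T I O _ _ _ J π ρ V _ _ N M hc hp
  refine ⟨?_, ?_, ?_, ?_, ?_⟩
  · intro T' I' O' _ _ _ J' π' ρ' N' hc' hp'
    refine ⟨fun t => ?_, fun o => ?_, ?_, ?_, ?_⟩
    · simp only [comp_apply]
      rw [hp'.pk, hp.pk]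
    · rw [← hp'.eps o, ← LinearMap.comp_assoc, comp_apply, hp.eps]
    · intro p o ho e
      have : N.ε (ρ' o) ≠ 0 := fun x => ho (by rw [← hp'.eps o, x, LinearMap.zero_comp])
      obtain ⟨t, rfl, ht⟩ := hp.lift p (ρ' o) this e
      obtain ⟨t', rfl, ht'⟩ := hp'.lift t o ho ht.symm
      exact ⟨t', rfl, ht'⟩
    · intro u hu i w h1 h2
      by_cases hi : ∃ t0, J'.vt t0 = i
      swap
      · have : w = 0 := funext fun p => h2 p fun t ht => (hi ⟨t, ht⟩).elim
        rw [this]; exact M.U.zero_mem
      obtain ⟨t0, ht0⟩ := hi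
      refine hp.down (fun t => if J.vt t = J.vt (π' t0) then w (π t) else 0) ?_ (J.vt (π' t0)) w
        (fun t ht => (if_pos ht).symm) ?_
      · refine hp'.down u hu i _ (fun t ht => ?_) fun t ht => ?_
        · rw [if_pos (hc'.vt_eq _ _ (ht.trans ht0.symm))]
          exact h1 t ht
        · refine if_neg fun e => ?_
          obtain ⟨t', h3, h4⟩ := hc'.full t0 t e
          exact ht t' (h3.trans ht0) h4
      · intro p h
        exact h2 p fun t ht => h _ (hc'.vt_eq _ _ (ht.trans ht0.symm))
    · intro w hw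
      have := hp'.up _ (hp.up w hw)
      convert this using 2 with t
      rw [← hp'.pk, eps_right hp'.eps]
      rfl
  · intro g hg
    have h1 : ∀ o x, (∑ o, N.ε o ∘ₗ g ∘ₗ N.ε o) (N.ε o x) = N.ε o (g (N.ε o x)) := by
      intro o x
      rw [LinearMap.sum_apply, Finset.sum_eq_single o]
      · simp [eps_idem]
      · intro o' _ h
        simp [eps_orth N h]
      · simp
    refine ⟨fun o => ?_, fun u hu => ?_⟩
    · ext x
      rw [LinearMap.comp_apply, h1, LinearMap.comp_apply, LinearMap.sum_apply, map_sum,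
        Finset.sum_eq_single o]
      · simp [eps_idem]
      · intro o' _ h
        simp [eps_orth N (Ne.symm h)]
      · simp
    · rw [sum_vpart J.vt fun p => (∑ o, N.ε o ∘ₗ g ∘ₗ N.ε o) (u p)]
      refine sum_mem fun i _ => ?_
      have := vpart_mem N (hp.up _ (hg.2 _ (pv_mem hc hp hu i))) i
      convert this using 2 with t
      split_ifs with ht
      · rw [pv_pos hc u ht, ← N.peak u hu t, h1]
      · rfl
  · intro A A' hA hN w hw
    rw [pv_up hc hp hw]
    refine sum_mem fun i _ => ?_
    refine AddSubgroup.closure_induction (p := fun u _ => pv J π i u ∈ AddSubgroup.closure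
      {w | ∃ b ∈ P.B, ∃ j ∈ A', ∃ u' ∈ M.U, w = act (b * P.e j) u'}) ?_ (by simp) ?_ ?_
      (hN _ (hp.up w hw))
    · rintro _ ⟨b, hb, j, hj, u, hu, rfl⟩
      by_cases hj0 : ∃ t0, J.vt t0 = j
      · obtain ⟨t0, ht0⟩ := hj0
        obtain ⟨h, hh, e⟩ := pv_act (V := V) hc hb i j ht0
        exact AddSubgroup.subset_closure ⟨h, hh, _, hA t0 (ht0 ▸ hj), _, pv_mem hc hp hu j, e u⟩
      · have : act (b * J.e j) u = 0 := by
          ext q
          refine Finset.sum_eq_zero fun t _ => ?_
          rw [mul_e_apply, if_neg fun e => hj0 ⟨t, e⟩, zero_smul]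
        rw [this, map_zero]
        exact zero_mem _
    · intro a b _ _ ha hb
      rw [map_add]; exact add_mem ha hb
    · intro a _ ha
      rw [map_neg]; exact neg_mem ha
  · rintro c o o' ⟨f, h0, h1, h⟩
    refine ⟨fun n => ρ (f n), congrArg ρ h0, congrArg ρ h1, fun n hn => ?_⟩
    rcases h n hn with e | ⟨t, t', e1, e2, e3⟩
    · exact Or.inl (congrArg ρ e)
    · exact Or.inr ⟨π t, π t', hc.vt_eq _ _ e1, by rw [← hp.pk, e2],
        by rw [← hp.pk, e3]⟩
  · intro ω hω
    by_contra h
    push Not at h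
    refine hω (LinearMap.ext fun x => ?_)
    rw [eps_sum hp.eps]
    refine Finset.sum_eq_zero fun o _ => ?_
    split_ifs with e
    · rw [h o e]; rfl
    · rfl

theorem conv : SConv := by
  classical
  intro k F _ _ _ Pt ι Ω _ _ _ P G _ deg T I O _ _ _ J π γ θ hL V _ _ M Γ hΘ hΓ
  have hc := hL.cov
  let N : Obj J V :=
    { ε := fun o => Γ.π (θ o).2 ∘ₗ M.ε (θ o).1
      orth := fun o o' h => LinearMap.ext fun x => by
        have h' : θ o ≠ θ o' := fun e => h (hL.θinj e)
        simp only [LinearMap.comp_apply, LinearMap.zero_apply]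
        by_cases e : (θ o).1 = (θ o').1
        · have e2 : (θ o).2 ≠ (θ o').2 := fun e2 => h' (Prod.ext e e2)
          rw [← grd_comm]
          exact LinearMap.congr_fun (Γ.orth _ _ e2) _
        · rw [← grd_comm, eps_orth M e, map_zero, map_zero]
      sum := by
        have h1 : ∑ x ∈ (Finset.univ : Finset Ω) ×ˢ Γ.s, Γ.π x.2 ∘ₗ M.ε x.1 = LinearMap.id := by
          ext x
          rw [Finset.sum_product, LinearMap.sum_apply, LinearMap.id_apply]
          conv_rhs => rw [← eps_total M x]
          refine Finset.sum_congr rfl fun o _ => ?_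
          have := LinearMap.congr_fun Γ.sum (M.ε o x)
          rw [LinearMap.sum_apply] at this ⊢
          exact this
        rw [← h1]
        refine Finset.sum_bij_ne_zero (fun o _ _ => θ o) ?_ ?_ ?_ (fun _ _ _ => rfl)
        · intro o _ h
          refine Finset.mem_product.2 ⟨Finset.mem_univ _, by_contra fun e => h ?_⟩
          rw [Γ.supp _ e, LinearMap.zero_comp]
        · intro o _ _ o' _ _ e
          exact hL.θinj e
        · intro x _ h
          obtain ⟨o, ho⟩ := hΘ x.1 x.2 h
          exact ⟨o, Finset.mem_univ _, by rw [ho]; exact h, ho⟩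
      U :=
        { carrier := {u | (∀ t, (Γ.π (θ (J.pk t)).2 ∘ₗ M.ε (θ (J.pk t)).1) (u t) = u t) ∧
            ∀ i, pv J π i u ∈ M.U}
          add_mem' := fun {a b} ha hb => ⟨fun t => by rw [Pi.add_apply, map_add, ha.1, hb.1],
            fun i => by rw [map_add]; exact add_mem (ha.2 i) (hb.2 i)⟩
          zero_mem' := ⟨fun t => map_zero _, fun i => by rw [map_zero]; exact zero_mem _⟩
          neg_mem' := fun {a} ha => ⟨fun t => by rw [Pi.neg_apply, map_neg, ha.1],
            fun i => by rw [map_neg]; exact neg_mem (ha.2 i)⟩ }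
      peak := fun u hu => hu.1
      stab := fun b hb u hu => by
        refine ⟨fun t' => ?_, fun i => ?_⟩
        · simp only [act, map_sum, map_smul]
          refine Finset.sum_congr rfl fun t _ => ?_
          by_cases e : b t' t = 0
          · rw [e, zero_smul, zero_smul]
          · rw [J.peak b hb _ _ e, hu.1]
        · rw [act_split (J := J), map_sum]
          refine sum_mem fun j hj => ?_
          obtain ⟨t0, _, ht0⟩ := Finset.mem_image.1 hj
          obtain ⟨h, hh, e⟩ := pv_act (V := V) hc hb i j ht0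
          rw [e]
          exact M.stab _ (P.B.mul_mem hh (P.e_mem _)) _ (hu.2 j) }
  have hε : ∀ o x, N.ε o x = Γ.π (θ o).2 (M.ε (θ o).1 x) := fun _ _ => rfl
  have hpush : Push π (fun o => (θ o).1) N M := by
    refine ⟨fun t => by simp only [hL.pk], fun o => LinearMap.ext fun x => ?_, ?_, ?_, ?_⟩
    · rw [LinearMap.comp_apply, hε, ← grd_comm, eps_idem]
    · intro p o ho e
      obtain ⟨i, hi⟩ := hΓ p ((θ o).2 * (deg p)⁻¹) (by
        rw [inv_mul_cancel_right, ← e]; exact ho)
      obtain ⟨t0, rfl⟩ := hL.surj i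
      obtain ⟨t, ht, rfl⟩ := hc.full t0 p (by rw [← hL.vt, hi])
      refine ⟨t, rfl, hL.θinj ?_⟩
      rw [hL.pk, ht, hi, inv_mul_cancel_right, ← e]
    · intro u hu i w h1 h2
      have : w = pv J π i u := by
        ext p
        by_cases e : ∃ t, J.vt t = i ∧ π t = p
        · obtain ⟨t, ht, rfl⟩ := e
          rw [h1 t ht, pv_pos hc u ht]
        · have e' : ∀ t, J.vt t = i → π t ≠ p := fun t a b => e ⟨t, a, b⟩
          rw [h2 p e', pv_neg u e']
      rw [this]
      exact hu.2 i
    · intro w hw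
      refine ⟨fun t => eps_idem N _ _, fun i => ?_⟩
      have := vpart_mem M (Γ.hom w hw (γ i).2) (γ i).1
      convert this using 1
      ext p
      obtain ⟨t0, rfl⟩ := hL.surj i
      split_ifs with e
      · obtain ⟨t, ht, rfl⟩ := hc.full t0 p (by rw [← hL.vt, e])
        rw [pv_pos hc _ ht, hε, hL.pk, ht, M.peak w hw]
      · exact pv_neg _ fun t ht x => e (by rw [← x, ← hL.vt, ht])
  refine ⟨N, hpush, fun _ => rfl, fun e => ⟨fun he => ?_, fun he => ?_⟩⟩
  · have hcm : ∀ o x, e (N.ε o x) = N.ε o (e x) := fun o x => LinearMap.congr_fun (he.1 o) x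
    refine ⟨⟨fun ω => LinearMap.ext fun x => ?_, fun w hw => ?_⟩,
      fun g => LinearMap.ext fun x => ?_⟩
    · simp only [LinearMap.comp_apply]
      rw [eps_sum hpush.eps, eps_sum hpush.eps, map_sum]
      refine Finset.sum_congr rfl fun o _ => ?_
      split_ifs
      · exact hcm o x
      · exact map_zero _
    · have h1 : (fun p => e (w p)) = ∑ i ∈ Finset.univ.image J.vt,
          pv J π i fun t => e (N.ε (J.pk t) (w (π t))) := by
        ext p
        conv_lhs => rw [pv_up hc hpush hw]
        simp only [Finset.sum_apply, map_sum, pv_map]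
      rw [h1]
      exact sum_mem fun i _ => (he.2 _ (hpush.up w hw)).2 i
    · have h1 : ∀ y, Γ.π g y = ∑ o, if (θ o).2 = g then N.ε o y else 0 := by
        intro y
        conv_lhs => rw [← eps_total N y, map_sum]
        refine Finset.sum_congr rfl fun o _ => ?_
        split_ifs with h
        · rw [hε, h, grd_idem]
        · exact LinearMap.congr_fun (Γ.orth _ _ (Ne.symm h)) _
      simp only [LinearMap.comp_apply]
      rw [h1, h1, map_sum]
      refine Finset.sum_congr rfl fun o _ => ?_
      split_ifs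
      · exact hcm o x
      · exact map_zero _
  · have hcm : ∀ o x, e (N.ε o x) = N.ε o (e x) := fun o x => by
      have h1 := LinearMap.congr_fun (he.2 (θ o).2) (M.ε (θ o).1 x)
      have h2 := LinearMap.congr_fun (he.1.1 (θ o).1) x
      simp only [LinearMap.comp_apply] at h1 h2
      rw [hε, hε, h1, h2]
    refine ⟨fun o => LinearMap.ext (hcm o), fun u hu => ⟨fun t => ?_, fun i => ?_⟩⟩
    · exact (hcm _ _).symm.trans (congrArg e (hu.1 t))
    · rw [pv_map]
      exact he.1.2 _ (hu.2 i)

end Pool.Agent.MP_bd94e8_al.H89
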